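import Pool.Agent.H54.CV.V2

/-!
# [CCC P4] Arrival times `tau` of half-spaces and their sums `smt`
-/

set_option autoImplicit false

namespace Pool.Agent.H54.CV

open Pool.Agent.H37.CC Pool.Agent.H54.CP
open scoped Pointwise

/-- a finite symmetric generating set with `1`; it moves the base vertex by at most `R` -/
structure Gd {G : Type} (H : Type) [Group G] [PartialOrder H] [Bas H] [MulAction G H] [BAct G H] (S : Set G)
    (R : ℕ) : Prop where
  fin : S.Finite
  one : (1 : G) ∈ S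
  inv : ∀ s ∈ S, s⁻¹ ∈ S
  gen : ∀ g : G, ∃ m : ℕ, g ∈ S ^ m
  rad : ∀ s ∈ S, ds (bs : Vtx H) (s • bs) ≤ R

section pow

variable {G : Type} [Group G]

theorem inv_mem_pow {S : Set G} (hS : ∀ s ∈ S, s⁻¹ ∈ S) {m : ℕ} {u : G} (hu : u ∈ S ^ m) : u⁻¹ ∈ S ^ m := by
  induction m generalizing u with
  | zero =>
    rw [pow_zero, Set.mem_one] at hu ⊢
    rw [hu, inv_one]
  | succ m ih =>
    rw [pow_succ, Set.mem_mul] at hu
    obtain ⟨v, hv, s, hs, rfl⟩ := hu
    rw [mul_inv_rev, pow_succ', Set.mem_mul]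
    exact ⟨s⁻¹, hS s hs, v⁻¹, ih hv, rfl⟩

theorem mul_mem_pow {S : Set G} {m : ℕ} {u s : G} (hu : u ∈ S ^ m) (hs : s ∈ S) : u * s ∈ S ^ (m + 1) := by
  rw [pow_succ]
  exact Set.mul_mem_mul hu hs

theorem mul_mem_pow' {S : Set G} {m : ℕ} {u s : G} (hu : u ∈ S ^ m) (hs : s ∈ S) : s * u ∈ S ^ (m + 1) := by
  rw [pow_succ']
  exact Set.mul_mem_mul hs hu

theorem pow_finite {S : Set G} (hS : S.Finite) (m : ℕ) : (S ^ m).Finite := by
  induction m with
  | zero =>
    rw [pow_zero]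
    exact Set.finite_one
  | succ m ih =>
    rw [pow_succ]
    exact ih.mul hS

theorem pow_ncard_le {S : Set G} (hS : S.Finite) (m : ℕ) : (S ^ m).ncard ≤ S.ncard ^ m := by
  induction m with
  | zero =>
    rw [pow_zero, pow_zero, ← Set.singleton_one, Set.ncard_singleton]
  | succ m ih =>
    rw [pow_succ, pow_succ, ← Set.image_mul_prod]
    refine (Set.ncard_image_le ((pow_finite hS m).prod hS)).trans ?_
    rw [Set.ncard_prod]
    exact Nat.mul_le_mul_right _ ih

end pow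

variable {G H : Type} [Group G] [PartialOrder H] [Bas H] [MulAction G H] [BAct G H]

/-- finitely generated groups have such generating sets -/
theorem exists_gd (H : Type) [PartialOrder H] [Bas H] [MulAction G H] [BAct G H] (hfg : Group.FG G) {F : Set G}
    (hF : F.Finite) : ∃ (S : Set G) (R : ℕ), F ⊆ S ∧ Gd H S R := by
  obtain ⟨T, hT, hTf⟩ := (Group.fg_iff (G := G)).1 hfg
  set S : Set G := (T ∪ F ∪ {1}) ∪ (T ∪ F ∪ {1})⁻¹ with hS
  have hfin : S.Finite := by
    have h1 : (T ∪ F ∪ {1} : Set G).Finite := (hTf.union hF).union (Set.finite_singleton 1)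
    exact h1.union h1.inv
  have h1 : (1 : G) ∈ S := Or.inl (Or.inr rfl)
  have hinv : ∀ s ∈ S, s⁻¹ ∈ S := by
    rintro s (hs | hs)
    · exact Or.inr (Set.inv_mem_inv.2 hs)
    · exact Or.inl hs
  have hgen : ∀ g : G, ∃ m : ℕ, g ∈ S ^ m := by
    intro g
    have hg : g ∈ Subgroup.closure T := by
      rw [hT]
      trivial
    induction hg using Subgroup.closure_induction with
    | mem x hx => exact ⟨1, by rw [pow_one]; exact Or.inl (Or.inl (Or.inl hx))⟩
    | one => exact ⟨0, by rw [pow_zero]; rfl⟩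
    | mul x y _ _ hx hy =>
      obtain ⟨a, ha⟩ := hx
      obtain ⟨b, hb⟩ := hy
      exact ⟨a + b, by rw [pow_add]; exact Set.mul_mem_mul ha hb⟩
    | inv x _ hx =>
      obtain ⟨a, ha⟩ := hx
      exact ⟨a, inv_mem_pow hinv ha⟩
  obtain ⟨R, hR⟩ := (hfin.image (fun s : G => ds (bs : Vtx H) (s • bs))).bddAbove
  refine ⟨S, R, fun x hx => Or.inl (Or.inl (Or.inr hx)), hfin, h1, hinv, hgen, fun s hs => ?_⟩
  exact hR ⟨s, hs, rfl⟩

theorem ds_pow {S : Set G} {R : ℕ} (D : Gd H S R) {m : ℕ} {u : G} (hu : u ∈ S ^ m) (g : G) :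
    ds (g • (bs : Vtx H)) ((g * u) • bs) ≤ R * m := by
  induction m generalizing u with
  | zero =>
    rw [pow_zero, Set.mem_one] at hu
    rw [hu, mul_one, ds_self]
    exact Nat.zero_le _
  | succ m ih =>
    rw [pow_succ, Set.mem_mul] at hu
    obtain ⟨v, hv, s, hs, rfl⟩ := hu
    have h1 := ds_tri (g • (bs : Vtx H)) ((g * v) • bs) ((g * (v * s)) • bs)
    have h2 := ih hv
    have h3 : ds ((g * v) • (bs : Vtx H)) ((g * (v * s)) • bs) ≤ R := by
      rw [← mul_assoc, mul_smul (g * v) s, ds_smul]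
      exact D.rad s hs
    rw [Nat.mul_succ]
    omega

theorem ds_step {S : Set G} {R : ℕ} (D : Gd H S R) {s : G} (hs : s ∈ S) (g : G) :
    ds (g • (bs : Vtx H)) ((g * s) • bs) ≤ R := by
  rw [mul_smul, ds_smul]
  exact D.rad s hs

theorem mem_bs_smul (g : G) (h : H) : h ∈ (g • (bs : Vtx H)).U ↔ g⁻¹ • h ∈ (Bas.o : Set H) := Iff.rfl

theorem tau_nonempty {S : Set G} {R : ℕ} (D : Gd H S R) (g : G) (h : H) :
    {m | ∃ w ∈ S ^ m, h ∈ ((g * w) • (bs : Vtx H)).U}.Nonempty := by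
  obtain ⟨g', hg'⟩ := BAct.sep (G := G) h
  obtain ⟨m, hm⟩ := D.gen (g⁻¹ * g')
  refine ⟨m, g⁻¹ * g', hm, ?_⟩
  rw [mul_inv_cancel_left]
  exact hg'

theorem tau_spec {S : Set G} {R : ℕ} (D : Gd H S R) (g : G) (h : H) :
    ∃ w ∈ S ^ tau S g h, h ∈ ((g * w) • (bs : Vtx H)).U :=
  Nat.sInf_mem (tau_nonempty D g h)

theorem tau_le {S : Set G} {g u : G} {h : H} {m : ℕ} (hu : u ∈ S ^ m) (hh : h ∈ ((g * u) • (bs : Vtx H)).U) :
    tau S g h ≤ m :=
  Nat.sInf_le ⟨u, hu, hh⟩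

theorem tau_pos {S : Set G} {R : ℕ} (D : Gd H S R) {g : G} {h : H} (hh : h ∉ (g • (bs : Vtx H)).U) :
    0 < tau S g h := by
  rw [Nat.pos_iff_ne_zero]
  intro h0
  obtain ⟨u, hu, hhu⟩ := tau_spec D g h
  rw [h0, pow_zero, Set.mem_one] at hu
  rw [hu, mul_one] at hhu
  exact hh hhu

theorem tau_eq_zero {S : Set G} {g : G} {h : H} (hh : h ∈ (g • (bs : Vtx H)).U) : tau S g h = 0 :=
  Nat.le_zero.1 (tau_le (u := 1) (by rw [pow_zero]; rfl) (by rwa [mul_one]))

theorem tau_anti {S : Set G} {R : ℕ} (D : Gd H S R) (g : G) {h k : H} (hle : h ≤ k) : tau S g k ≤ tau S g h := by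
  obtain ⟨u, hu, hhu⟩ := tau_spec D g h
  exact tau_le hu (((g * u) • (bs : Vtx H)).up hhu hle)

theorem tau_smul (S : Set G) (γ g : G) (h : H) : tau S (γ * g) (γ • h) = tau S g h := by
  unfold tau
  congr 1
  ext m
  simp only [Set.mem_ofPred_eq]
  refine exists_congr fun u => and_congr_right fun _ => ?_
  rw [mul_assoc, mul_smul γ, smul_mem_smul]

theorem tau_step {S : Set G} {R : ℕ} (D : Gd H S R) {s : G} (hs : s ∈ S) (g : G) (h : H) :
    tau S g h ≤ tau S (g * s) h + 1 := by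
  obtain ⟨u, hu, hhu⟩ := tau_spec D (g * s) h
  rw [mul_assoc] at hhu
  exact tau_le (mul_mem_pow' hu hs) hhu

theorem tau_step' {S : Set G} {R : ℕ} (D : Gd H S R) {s : G} (hs : s ∈ S) (g : G) (h : H) :
    tau S (g * s) h ≤ tau S g h + 1 := by
  have h1 := tau_step D (D.inv s hs) (g * s) h
  rwa [mul_inv_cancel_right] at h1

theorem tau_le_one {S : Set G} {s g : G} (hs : s ∈ S) {h : H} (hh : h ∈ ((g * s) • (bs : Vtx H)).U) :
    tau S g h ≤ 1 :=
  tau_le (by rwa [pow_one]) hh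

theorem dep_le_tau {S : Set G} {R : ℕ} (D : Gd H S R) (g : G) (h : H) :
    dep (g • (bs : Vtx H)) h ≤ R * tau S g h := by
  obtain ⟨u, hu, hhu⟩ := tau_spec D g h
  exact (dep_le_ds hhu).trans (ds_pow D hu g)

theorem smt_eq_sum (S : Set G) (g : G) (h : H) :
    smt S g h = ∑ k ∈ (dep_fin (g • (bs : Vtx H)) h).toFinset, tau S g k :=
  finsum_mem_eq_finite_toFinset_sum _ (dep_fin (g • (bs : Vtx H)) h)

theorem dep_eq_card (y : Vtx H) (h : H) : dep y h = (dep_fin y h).toFinset.card :=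
  Set.ncard_eq_toFinset_card _ (dep_fin y h)

theorem smt_smul (S : Set G) (γ g : G) (h : H) : smt S (γ * g) (γ • h) = smt S g h := by
  unfold smt
  rw [mul_smul, up_smul, finsum_mem_image (MulAction.injective γ).injOn]
  exact finsum_congr fun k => finsum_congr fun _ => tau_smul S γ g k

theorem tau_le_smt {S : Set G} {g : G} {h : H} (hh : h ∉ (g • (bs : Vtx H)).U) : tau S g h ≤ smt S g h := by
  rw [smt_eq_sum]
  exact Finset.single_le_sum (f := fun k => tau S g k) (fun _ _ => Nat.zero_le _)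
    ((Set.Finite.mem_toFinset _).2 ⟨le_rfl, hh⟩)

theorem dep_le_smt {S : Set G} {R : ℕ} (D : Gd H S R) (g : G) (h : H) :
    dep (g • (bs : Vtx H)) h ≤ smt S g h := by
  rw [smt_eq_sum, dep_eq_card, Finset.card_eq_sum_ones]
  refine Finset.sum_le_sum fun k hk => ?_
  rw [Set.Finite.mem_toFinset] at hk
  exact tau_pos D hk.2

/-- the growth of `smt` along nested half-spaces -/
theorem smt_lt {S : Set G} {g : G} {h h' : H} (hlt : h' < h) (hh : h' ∉ (g • (bs : Vtx H)).U) :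
    smt S g h + tau S g h' ≤ smt S g h' := by
  classical
  rw [smt_eq_sum, smt_eq_sum]
  have h1 : h' ∉ (dep_fin (g • (bs : Vtx H)) h).toFinset := by
    rw [Set.Finite.mem_toFinset]
    exact fun e => absurd e.1 hlt.not_ge
  rw [add_comm, ← Finset.sum_insert (f := fun k => tau S g k) h1]
  refine Finset.sum_le_sum_of_subset fun k hk => ?_
  rw [Finset.mem_insert, Set.Finite.mem_toFinset] at hk
  rw [Set.Finite.mem_toFinset]
  rcases hk with rfl | hk
  · exact ⟨le_rfl, hh⟩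
  · exact ⟨hlt.le.trans hk.1, hk.2⟩

theorem smt_anti (S : Set G) (g : G) {h h' : H} (hle : h' ≤ h) : smt S g h ≤ smt S g h' := by
  rw [smt_eq_sum, smt_eq_sum]
  refine Finset.sum_le_sum_of_subset fun k hk => ?_
  rw [Set.Finite.mem_toFinset] at hk ⊢
  exact ⟨hle.trans hk.1, hk.2⟩

theorem smt_le {S : Set G} {R : ℕ} (D : Gd H S R) (g : G) (h : H) :
    smt S g h ≤ dep (g • (bs : Vtx H)) h * tau S g h := by
  rw [smt_eq_sum, dep_eq_card, ← smul_eq_mul]
  refine Finset.sum_le_card_nsmul _ _ _ fun k hk => ?_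
  rw [Set.Finite.mem_toFinset] at hk
  exact tau_anti D g hk.1

/-- the change of `smt` under a step -/
theorem smt_step {S : Set G} {R : ℕ} (D : Gd H S R) {s : G} (hs : s ∈ S) (g : G) (h : H) :
    smt S g h ≤ smt S (g * s) h + dep (g • (bs : Vtx H)) h + R := by
  classical
  rw [smt_eq_sum, smt_eq_sum]
  set A := (dep_fin (g • (bs : Vtx H)) h).toFinset with hA
  set B := (dep_fin ((g * s) • (bs : Vtx H)) h).toFinset with hB
  have h1 : A = (A ∩ B) ∪ (A \ B) := by
    ext k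
    simp only [Finset.mem_union, Finset.mem_inter, Finset.mem_sdiff]
    tauto
  have h2 : Disjoint (A ∩ B) (A \ B) := by
    rw [Finset.disjoint_left]
    intro k hk hk'
    exact (Finset.mem_sdiff.1 hk').2 (Finset.mem_inter.1 hk).2
  have h3 : ∑ k ∈ A, tau S g k = ∑ k ∈ A ∩ B, tau S g k + ∑ k ∈ A \ B, tau S g k := by
    conv_lhs => rw [h1]
    exact Finset.sum_union h2
  have h4 : ∑ k ∈ A ∩ B, tau S g k ≤ ∑ k ∈ B, tau S (g * s) k + dep (g • (bs : Vtx H)) h := by
    calc ∑ k ∈ A ∩ B, tau S g k ≤ ∑ k ∈ A ∩ B, (tau S (g * s) k + 1) :=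
          Finset.sum_le_sum fun k _ => tau_step D hs g k
      _ = ∑ k ∈ A ∩ B, tau S (g * s) k + (A ∩ B).card := by
          rw [Finset.sum_add_distrib, Finset.card_eq_sum_ones]
      _ ≤ ∑ k ∈ B, tau S (g * s) k + dep (g • (bs : Vtx H)) h := by
          refine Nat.add_le_add (Finset.sum_le_sum_of_subset Finset.inter_subset_right) ?_
          rw [dep_eq_card]
          exact Finset.card_le_card Finset.inter_subset_left
  have h5 : ∑ k ∈ A \ B, tau S g k ≤ R := by
    have h6 : ∀ k ∈ A \ B, k ∈ ((g * s) • (bs : Vtx H)).U \ (g • (bs : Vtx H)).U := by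
      intro k hk
      rw [Finset.mem_sdiff, hA, hB, Set.Finite.mem_toFinset, Set.Finite.mem_toFinset] at hk
      refine ⟨?_, hk.1.2⟩
      by_contra hcon
      exact hk.2 ⟨hk.1.1, hcon⟩
    calc ∑ k ∈ A \ B, tau S g k ≤ (A \ B).card • 1 :=
          Finset.sum_le_card_nsmul _ _ _ fun k hk => tau_le_one hs (h6 k hk).1
      _ = (A \ B).card := by rw [smul_eq_mul, mul_one]
      _ ≤ ds (g • (bs : Vtx H)) ((g * s) • bs) := by
          rw [← Set.ncard_coe_finset]
          exact Set.ncard_le_ncard (fun k hk => h6 k (Finset.mem_coe.1 hk)) (diff_fin _ _)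
      _ ≤ R := ds_step D hs g
  omega

theorem smt_step' {S : Set G} {R : ℕ} (D : Gd H S R) {s : G} (hs : s ∈ S) (g : G) (h : H) :
    smt S (g * s) h ≤ smt S g h + dep ((g * s) • (bs : Vtx H)) h + R := by
  have h1 := smt_step D (D.inv s hs) (g * s) h
  rwa [mul_inv_cancel_right] at h1

/-- half-spaces which contain the next point -/
theorem smt_btw {S : Set G} {R : ℕ} (D : Gd H S R) {g s : G} (hs : s ∈ S) {h : H}
    (hh : h ∈ ((g * s) • (bs : Vtx H)).U) : smt S g h ≤ R := by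
  rw [smt_eq_sum]
  calc ∑ k ∈ (dep_fin (g • (bs : Vtx H)) h).toFinset, tau S g k
      ≤ (dep_fin (g • (bs : Vtx H)) h).toFinset.card • 1 := by
        refine Finset.sum_le_card_nsmul _ _ _ fun k hk => ?_
        rw [Set.Finite.mem_toFinset] at hk
        exact tau_le_one hs (((g * s) • (bs : Vtx H)).up hh hk.1)
    _ = dep (g • (bs : Vtx H)) h := by rw [smul_eq_mul, mul_one, dep_eq_card]
    _ ≤ ds (g • (bs : Vtx H)) ((g * s) • bs) := dep_le_ds hh
    _ ≤ R := ds_step D hs g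

/-- the change of the depth under a step -/
theorem dep_step {S : Set G} {R : ℕ} (D : Gd H S R) {s : G} (hs : s ∈ S) (g : G) (h : H) :
    dep (g • (bs : Vtx H)) h ≤ dep ((g * s) • (bs : Vtx H)) h + R :=
  (dep_le_add _ _ h).trans (Nat.add_le_add_left (ds_step D hs g) _)

theorem dep_step' {S : Set G} {R : ℕ} (D : Gd H S R) {s : G} (hs : s ∈ S) (g : G) (h : H) :
    dep ((g * s) • (bs : Vtx H)) h ≤ dep (g • (bs : Vtx H)) h + R := by
  have h1 := dep_step D (D.inv s hs) (g * s) h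
  rwa [mul_inv_cancel_right] at h1

/-- the half-spaces which are reached in time `M` -/
def Rch (S : Set G) (H : Type) [PartialOrder H] [Bas H] [MulAction G H] [BAct G H] (g : G) (M : ℕ) : Set H :=
  {h | h ∉ (g • (bs : Vtx H)).U ∧ tau S g h ≤ M}

theorem rch_subset {S : Set G} {R : ℕ} (D : Gd H S R) (g : G) (M : ℕ) :
    Rch S H g M ⊆ ⋃ u ∈ S ^ M, ((g * u) • (bs : Vtx H)).U \ (g • (bs : Vtx H)).U := by
  intro h hh
  obtain ⟨u, hu, hhu⟩ := tau_spec D g h
  exact Set.mem_biUnion (Set.pow_subset_pow_right D.one hh.2 hu) ⟨hhu, hh.1⟩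

theorem rch_finite {S : Set G} {R : ℕ} (D : Gd H S R) (g : G) (M : ℕ) : (Rch S H g M).Finite :=
  ((pow_finite D.fin M).biUnion fun u _ => diff_fin (g • (bs : Vtx H)) ((g * u) • bs)).subset (rch_subset D g M)

theorem rch_ncard_le {S : Set G} {R : ℕ} (D : Gd H S R) (g : G) (M : ℕ) :
    (Rch S H g M).ncard ≤ S.ncard ^ M * (R * M) := by
  classical
  have h1 : Rch S H g M ⊆ (((pow_finite D.fin M).toFinset.biUnion
      (fun u => (diff_fin (g • (bs : Vtx H)) ((g * u) • bs)).toFinset) : Finset H) : Set H) := by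
    intro h hh
    obtain ⟨u, hu, hhu⟩ := Set.mem_iUnion₂.1 (rch_subset D g M hh)
    rw [Finset.mem_coe, Finset.mem_biUnion]
    exact ⟨u, (Set.Finite.mem_toFinset _).2 hu, (Set.Finite.mem_toFinset _).2 hhu⟩
  refine (Set.ncard_le_ncard h1 (Finset.finite_toSet _)).trans ?_
  rw [Set.ncard_coe_finset]
  refine Finset.card_biUnion_le.trans ?_
  refine (Finset.sum_le_card_nsmul _ _ (R * M) fun u hu => ?_).trans ?_
  · rw [Set.Finite.mem_toFinset] at hu
    rw [← Set.ncard_eq_toFinset_card _ (diff_fin (g • (bs : Vtx H)) ((g * u) • bs))]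
    exact ds_pow D hu g
  · rw [smul_eq_mul]
    refine Nat.mul_le_mul_right _ ?_
    rw [← Set.ncard_eq_toFinset_card _ (pow_finite D.fin M)]
    exact pow_ncard_le D.fin M

theorem rch_smul (S : Set G) (γ g : G) (M : ℕ) : Rch S H (γ * g) M = (fun h => γ • h) '' Rch S H g M := by
  ext h
  constructor
  · rintro ⟨h1, h2⟩
    refine ⟨γ⁻¹ • h, ⟨fun h3 => h1 ?_, ?_⟩, smul_inv_smul γ h⟩
    · rw [mul_smul, mem_smul]
      exact h3
    · rw [← tau_smul S γ, smul_inv_smul]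
      exact h2
  · rintro ⟨k, ⟨h1, h2⟩, rfl⟩
    refine ⟨fun h3 => h1 ?_, ?_⟩
    · rw [mul_smul, smul_mem_smul] at h3
      exact h3
    · change tau S (γ * g) (γ • k) ≤ M
      rw [tau_smul]
      exact h2

end Pool.Agent.H54.CV
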