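import Mathlib

/-!
# Counting small subsets
-/

set_option autoImplicit false

namespace Pool.Agent.H54.CV

/-- a finite set with `e` elements has at most `(e + 1) ^ k` subsets with at most `k` elements -/
theorem card_small {α : Type*} [DecidableEq α] (T : Finset α) (k : ℕ) :
    (T.powerset.filter (fun A => A.card ≤ k)).card ≤ (T.card + 1) ^ k := by
  induction k with
  | zero =>
    have h1 : T.powerset.filter (fun A => A.card ≤ 0) ⊆ {∅} := by
      intro A hA
      rw [Finset.mem_filter] at hA
      rw [Finset.mem_singleton]
      exact Finset.card_eq_zero.1 (Nat.le_zero.1 hA.2)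
    refine (Finset.card_le_card h1).trans ?_
    rw [Finset.card_singleton, pow_zero]
  | succ k ih =>
    set B := T.powerset.filter (fun A => A.card ≤ k) with hB
    have h1 : T.powerset.filter (fun A => A.card ≤ k + 1) ⊆
        B ∪ (T ×ˢ B).image (fun p => insert p.1 p.2) := by
      intro A hA
      rw [Finset.mem_filter, Finset.mem_powerset] at hA
      rcases A.eq_empty_or_nonempty with h0 | ⟨a, ha⟩
      · refine Finset.mem_union_left _ ?_
        rw [hB, Finset.mem_filter, Finset.mem_powerset, h0]
        exact ⟨Finset.empty_subset _, Nat.zero_le _⟩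
      · refine Finset.mem_union_right _ (Finset.mem_image.2 ⟨(a, A.erase a), ?_, Finset.insert_erase ha⟩)
        rw [Finset.mem_product, hB, Finset.mem_filter, Finset.mem_powerset]
        refine ⟨hA.1 ha, (Finset.erase_subset _ _).trans hA.1, ?_⟩
        rw [Finset.card_erase_of_mem ha]
        omega
    calc (T.powerset.filter (fun A => A.card ≤ k + 1)).card ≤ (B ∪ (T ×ˢ B).image (fun p => insert p.1 p.2)).card :=
          Finset.card_le_card h1
      _ ≤ B.card + ((T ×ˢ B).image (fun p => insert p.1 p.2)).card := Finset.card_union_le _ _
      _ ≤ B.card + T.card * B.card := by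
          refine Nat.add_le_add_left (Finset.card_image_le.trans ?_) _
          rw [Finset.card_product]
      _ = (T.card + 1) * B.card := by ring
      _ ≤ (T.card + 1) * (T.card + 1) ^ k := Nat.mul_le_mul_left _ ih
      _ = (T.card + 1) ^ (k + 1) := by ring

end Pool.Agent.H54.CV
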