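import Pool.Agent.H37.CC.Defs
import Pool.Agent.H54.CP.Ideal

/-!
# [CCC P1, P3] Vertices, distance, positions, counting and packing in regions
-/

set_option autoImplicit false

namespace Pool.Agent.H54.CV

open Pool.Agent.H37.CC Pool.Agent.H54.CP
open scoped Pointwise

section

variable {H : Type} [PartialOrder H] [Bas H]

theorem st_mem_diff (y z : Vtx H) {h : H} : st h ∈ y.U \ z.U ↔ h ∈ z.U \ y.U := by
  rw [Set.mem_sdiff, Set.mem_sdiff, y.st_mem, z.st_mem, not_not, and_comm]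

theorem image_st_diff (y z : Vtx H) : st '' (z.U \ y.U) = y.U \ z.U := by
  ext h
  constructor
  · rintro ⟨k, hk, rfl⟩
    exact (st_mem_diff y z).2 hk
  · intro hh
    exact ⟨st h, (st_mem_diff z y).2 hh, st_st h⟩

theorem st_injective : Function.Injective (st : H → H) := fun _ _ e => st_inj e

theorem st_le_iff {h k : H} : st h ≤ st k ↔ k ≤ h := by
  rw [st_le_comm, st_st]

theorem ds_self (y : Vtx H) : ds y y = 0 := by
  rw [ds, Set.sdiff_self, Set.ncard_empty]

theorem ds_comm (y z : Vtx H) : ds y z = ds z y := by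
  rw [ds, ds, ← image_st_diff y z, Set.ncard_image_of_injective _ st_injective]

theorem diff_subset_union (x y z : Vtx H) : z.U \ x.U ⊆ (y.U \ x.U) ∪ (z.U \ y.U) := by
  intro h hh
  by_cases hy : h ∈ y.U
  · exact Or.inl ⟨hy, hh.2⟩
  · exact Or.inr ⟨hh.1, hy⟩

theorem ds_tri (x y z : Vtx H) : ds x z ≤ ds x y + ds y z :=
  (Set.ncard_le_ncard (diff_subset_union x y z) ((diff_fin x y).union (diff_fin y z))).trans
    (Set.ncard_union_le _ _)

theorem eq_of_ds {y z : Vtx H} (h : ds y z = 0) : y = z := by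
  have h2 : z.U \ y.U = ∅ := (Set.ncard_eq_zero (diff_fin y z)).1 h
  have h3 : y.U \ z.U = ∅ := by rw [← image_st_diff y z, h2, Set.image_empty]
  refine Vtx.ext' fun k => ⟨fun hk => ?_, fun hk => ?_⟩
  · by_contra hcon
    have : k ∈ y.U \ z.U := ⟨hk, hcon⟩
    rw [h3] at this
    exact this
  · by_contra hcon
    have : k ∈ z.U \ y.U := ⟨hk, hcon⟩
    rw [h2] at this
    exact this

theorem ds_eq_zero {y z : Vtx H} : ds y z = 0 ↔ y = z :=
  ⟨eq_of_ds, fun h => by rw [h, ds_self]⟩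

/-- half-spaces between two vertices are not facing -/
theorem diff_nf {y z : Vtx H} {h k : H} (hh : h ∈ z.U \ y.U) (hk : k ∈ z.U \ y.U) :
    ¬ h ≤ st k ∧ ¬ st h ≤ k := by
  constructor
  · intro e
    exact z.st_mem.1 (z.up hh.1 e) hk.1
  · intro e
    exact hk.2 (y.up (y.st_mem.2 hh.2) e)

theorem nf_width {n : ℕ} (hd : Dim H n) {U : Finset H} (hU : ∀ h ∈ U, ∀ k ∈ U, ¬ h ≤ st k ∧ ¬ st h ≤ k) :
    Width n U := by
  intro t ht hta
  refine hd t fun h hh k hk hne => ⟨?_, ?_, ?_, ?_⟩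
  · exact hta hh hk hne
  · exact hta hk hh (Ne.symm hne)
  · exact (hU h (ht hh) k (ht hk)).1
  · exact (hU k (ht hk) h (ht hh)).2

/-- upward closed finite sets without facing pairs are the sets of the half-spaces between `y` and a vertex -/
theorem exists_mv (y : Vtx H) {U : Set H} (hfin : U.Finite) (hy : ∀ h ∈ U, h ∉ y.U)
    (hup : ∀ h ∈ U, ∀ k, h ≤ k → k ∉ y.U → k ∈ U) (hf : ∀ h ∈ U, ∀ k ∈ U, ¬ h ≤ st k) :
    ∃ z : Vtx H, z.U \ y.U = U := by
  refine ⟨{ U := {h | h ∈ U ∨ (h ∈ y.U ∧ st h ∉ U)}, isV := ⟨fun h => ?_, fun {h k} hh hk => ?_⟩, fin := ?_ }, ?_⟩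
  · simp only [Set.mem_ofPred_eq, st_st]
    constructor
    · rintro (h1 | ⟨h1, h2⟩)
      · rintro (h3 | ⟨h3, h4⟩)
        · exact hf h h3 (st h) h1 (by rw [st_st])
        · exact h4 h1
      · rintro (h3 | ⟨h3, h4⟩)
        · exact h2 h3
        · exact y.st_mem.1 h1 h3
    · intro h1
      rw [not_or, not_and, not_not] at h1
      by_cases h2 : h ∈ y.U
      · exact Or.inl (h1.2 h2)
      · exact Or.inr ⟨y.st_mem.2 h2, h1.1⟩
  · simp only [Set.mem_ofPred_eq] at hh ⊢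
    rcases hh with h1 | ⟨h1, h2⟩
    · by_cases h3 : k ∈ y.U
      · refine Or.inr ⟨h3, fun h4 => ?_⟩
        exact hf h h1 (st k) h4 (by rwa [st_st])
      · exact Or.inl (hup h h1 k hk h3)
    · refine Or.inr ⟨y.up h1 hk, fun h4 => h2 ?_⟩
      refine hup (st k) h4 (st h) (st_le_iff.2 hk) ?_
      rw [y.st_mem, not_not]
      exact h1
  · refine (hfin.union y.fin).subset ?_
    rintro h ⟨h1 | ⟨h1, _⟩, h2⟩
    · exact Or.inl h1
    · exact Or.inr ⟨h1, h2⟩
  · ext h
    simp only [Set.mem_sdiff, Set.mem_ofPred_eq]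
    constructor
    · rintro ⟨h2 | h2, h1⟩
      · exact h2
      · exact absurd h2.1 h1
    · intro h1
      exact ⟨Or.inl h1, hy h h1⟩

/-- a vertex is determined by the half-spaces between `x` and it -/
theorem eq_of_diff {x y z : Vtx H} (h : y.U \ x.U = z.U \ x.U) : y = z := by
  have key : ∀ {y z : Vtx H}, y.U \ x.U = z.U \ x.U → ∀ k, k ∈ y.U → k ∈ z.U := by
    intro y z h k hk
    by_cases hkx : k ∈ x.U
    · by_contra hcon
      have h1 : st k ∈ z.U \ x.U := ⟨z.st_mem.2 hcon, by rw [x.st_mem, not_not]; exact hkx⟩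
      rw [← h] at h1
      exact y.st_mem.1 h1.1 hk
    · have h1 : k ∈ y.U \ x.U := ⟨hk, hkx⟩
      rw [h] at h1
      exact h1.1
  exact Vtx.ext' fun k => ⟨key h k, key h.symm k⟩

/-- the vertices with few half-spaces between `y` and them -/
theorem fin_pos (y : Vtx H) {U : Set H} (hU : U.Finite) : {z : Vtx H | z.U \ y.U ⊆ U}.Finite := by
  refine Set.Finite.of_finite_image (f := fun z : Vtx H => z.U \ y.U) (hU.finite_subsets.subset ?_) ?_
  · rintro _ ⟨z, hz, rfl⟩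
    exact hz
  · intro z _ z' _ h
    exact eq_of_diff h

/-- the distance of two points of a region in terms of the half-spaces of the region -/
theorem ds_rgn [DecidableEq H] {P : Set (Vtx H) × Set H} (hP : Rgn P) {y z : Vtx H} (hy : y ∈ P.1) (hz : z ∈ P.1)
    (A : Vtx H → Finset H) (hA : ∀ y, ∀ h, h ∈ A y ↔ h ∈ P.2 ∧ h ∈ y.U) :
    ds y z = (symmDiff (A y) (A z)).card := by
  have h1 : z.U \ y.U = (((A z \ A y) ∪ (A y \ A z).image st : Finset H) : Set H) := by
    ext h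
    rw [Finset.mem_coe, Finset.mem_union, Finset.mem_sdiff, Finset.mem_image, hA, hA]
    constructor
    · rintro ⟨h1, h2⟩
      rcases hP.sep z hz y hy h h1 h2 with h3 | h3
      · exact Or.inl ⟨⟨h3, h1⟩, fun h4 => h2 h4.2⟩
      · refine Or.inr ⟨st h, ?_, st_st h⟩
        rw [Finset.mem_sdiff, hA, hA]
        exact ⟨⟨h3, y.st_mem.2 h2⟩, fun h4 => z.st_mem.1 h4.2 h1⟩
    · rintro (⟨⟨h1, h2⟩, h3⟩ | ⟨k, hk, rfl⟩)
      · exact ⟨h2, fun h4 => h3 ⟨h1, h4⟩⟩
      · rw [Finset.mem_sdiff, hA, hA] at hk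
        exact ⟨z.st_mem.2 fun h4 => hk.2 ⟨hk.1.1, h4⟩, fun h4 => y.st_mem.1 h4 hk.1.2⟩
  rw [ds, h1, Set.ncard_coe_finset, Finset.card_union_of_disjoint, Finset.card_image_of_injective _ st_injective,
    symmDiff_comm, symmDiff_def, Finset.sup_eq_union, Finset.card_union_of_disjoint]
  · exact disjoint_sdiff_sdiff
  · rw [Finset.disjoint_left]
    intro a ha hb
    obtain ⟨b, hb', rfl⟩ := Finset.mem_image.1 hb
    rw [Finset.mem_sdiff, hA] at ha hb'
    exact (hP.nf (st b) ha.1.1 b hb'.1.1).1 le_rfl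

/-- the data for the coordinates of a region -/
theorem rgn_data {n : ℕ} (hd : Dim H n) {P : Set (Vtx H) × Set H} (hP : Rgn P) :
    ∃ (_ : DecidableEq H) (U : Finset H) (A : Vtx H → Finset H), Width n U ∧
      (∀ y, ∀ h, h ∈ A y ↔ h ∈ P.2 ∧ h ∈ y.U) ∧ (∀ y, IsUp U (A y)) ∧
      (∀ y ∈ P.1, ∀ z ∈ P.1, ds y z = (symmDiff (A y) (A z)).card) ∧
      (∀ y ∈ P.1, ∀ z ∈ P.1, A y = A z → y = z) := by
  classical
  have hA : ∀ y : Vtx H, ∀ h, h ∈ hP.fin2.toFinset.filter (fun h => h ∈ y.U) ↔ h ∈ P.2 ∧ h ∈ y.U := by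
    intro y h
    rw [Finset.mem_filter, Set.Finite.mem_toFinset]
  refine ⟨inferInstance, hP.fin2.toFinset, fun y => hP.fin2.toFinset.filter (fun h => h ∈ y.U), ?_, hA, ?_, ?_, ?_⟩
  · refine nf_width hd fun h hh k hk => ?_
    rw [Set.Finite.mem_toFinset] at hh hk
    exact hP.nf h hh k hk
  · intro y
    refine ⟨Finset.filter_subset _ _, fun h hh k hk hle => ?_⟩
    rw [hA] at hh ⊢
    rw [Set.Finite.mem_toFinset] at hk
    exact ⟨hk, y.up hh.2 hle⟩
  · intro y hy z hz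
    exact ds_rgn hP hy hz _ hA
  · intro y hy z hz h
    refine eq_of_ds ?_
    rw [ds_rgn hP hy hz _ hA]
    have h' : hP.fin2.toFinset.filter (fun h => h ∈ y.U) = hP.fin2.toFinset.filter (fun h => h ∈ z.U) := h
    change (symmDiff (hP.fin2.toFinset.filter (fun h => h ∈ y.U)) (hP.fin2.toFinset.filter (fun h => h ∈ z.U))).card = 0
    rw [h', symmDiff_self, Finset.bot_eq_empty, Finset.card_empty]

/-- a set all of whose finite subsets are small -/
theorem encard_le_of_finset {X : Type} {Z : Set X} {k : ℕ} (h : ∀ F : Finset X, (F : Set X) ⊆ Z → F.card ≤ k) :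
    Z.encard ≤ k := by
  by_contra hcon
  rw [not_le] at hcon
  have h1 : ((k + 1 : ℕ) : ℕ∞) ≤ Z.encard := by
    push_cast
    exact Order.add_one_le_of_lt hcon
  obtain ⟨t, ht, htc⟩ := Set.exists_subset_encard_eq h1
  have hfin : t.Finite := Set.finite_of_encard_eq_coe htc
  have h2 := h hfin.toFinset (by rw [Set.Finite.coe_toFinset]; exact ht)
  have h3 : (hfin.toFinset.card : ℕ∞) = ((k + 1 : ℕ) : ℕ∞) := by
    rw [← htc, Set.Finite.encard_eq_coe_toFinset_card hfin]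
  have h4 : hfin.toFinset.card = k + 1 := by exact_mod_cast h3
  omega

/-- COUNTING: a ball of radius `a` in a region has at most `(2a+1)^n` points -/
theorem count_rgn {n : ℕ} (hd : Dim H n) {P : Set (Vtx H) × Set H} (hP : Rgn P) {y : Vtx H} (hy : y ∈ P.1) (a : ℕ) :
    {z ∈ P.1 | ds y z ≤ a}.encard ≤ ((2 * a + 1) ^ n : ℕ) := by
  obtain ⟨_, U, A, hU, hA, hup, hds, hinj⟩ := rgn_data hd hP
  refine encard_le_of_finset fun F hF => ?_
  have hF' : ∀ z ∈ F, z ∈ P.1 ∧ ds y z ≤ a := fun z hz => hF (Finset.mem_coe.2 hz)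
  have h1 := count_ideals (t := a) hU (hup y) (F.image A) (by
    intro B hB
    obtain ⟨z, _, rfl⟩ := Finset.mem_image.1 hB
    exact hup z) (by
    intro B hB
    obtain ⟨z, hz, rfl⟩ := Finset.mem_image.1 hB
    rw [symmDiff_comm, ← hds y hy z (hF' z hz).1]
    exact (hF' z hz).2)
  rwa [Finset.card_image_of_injOn] at h1
  intro z hz z' hz' h
  exact hinj z (hF' z hz).1 z' (hF' z' hz').1 h

/-- PACKING: at most `(8n+1)^n` points of a region with pairwise distance `> a` are at distance at most `4a` from a point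
of the region -/
theorem pack_rgn' {n : ℕ} (hd : Dim H n) {P : Set (Vtx H) × Set H} (hP : Rgn P) {a : ℕ} {y : Vtx H} (hy : y ∈ P.1)
    (Z : Set (Vtx H)) (hZ : Z ⊆ P.1) (h4 : ∀ z ∈ Z, ds y z ≤ 4 * a) (hZa : ∀ z ∈ Z, ∀ z' ∈ Z, z ≠ z' → a < ds z z') :
    Z.encard ≤ ((8 * n + 1) ^ n : ℕ) := by
  obtain ⟨_, U, A, hU, hA, hup, hds, hinj⟩ := rgn_data hd hP
  refine encard_le_of_finset fun F hF => ?_
  have hF' : ∀ z ∈ F, z ∈ Z := fun z hz => hF (Finset.mem_coe.2 hz)
  have h1 := pack_ideals (a := a) hU (hup y) (F.image A) (by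
    intro B hB
    obtain ⟨z, _, rfl⟩ := Finset.mem_image.1 hB
    exact hup z) (by
    intro B hB
    obtain ⟨z, hz, rfl⟩ := Finset.mem_image.1 hB
    rw [symmDiff_comm, ← hds y hy z (hZ (hF' z hz))]
    exact h4 z (hF' z hz)) (by
    intro B hB B' hB' hne
    obtain ⟨z, hz, rfl⟩ := Finset.mem_image.1 hB
    obtain ⟨z', hz', rfl⟩ := Finset.mem_image.1 hB'
    rw [← hds z (hZ (hF' z hz)) z' (hZ (hF' z' hz'))]
    exact hZa z (hF' z hz) z' (hF' z' hz') fun h => hne (by rw [h]))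
  rwa [Finset.card_image_of_injOn] at h1
  intro z hz z' hz' h
  exact hinj z (hZ (hF' z hz)) z' (hZ (hF' z' hz')) h

/-- PACKING: the same for distance at most `2a` from an arbitrary vertex -/
theorem pack_rgn {n : ℕ} (hd : Dim H n) {P : Set (Vtx H) × Set H} (hP : Rgn P) {a : ℕ} (v : Vtx H) (Z : Set (Vtx H))
    (hZ : Z ⊆ P.1) (hv : ∀ z ∈ Z, ds v z ≤ 2 * a) (hZa : ∀ z ∈ Z, ∀ z' ∈ Z, z ≠ z' → a < ds z z') :
    Z.encard ≤ ((8 * n + 1) ^ n : ℕ) := by
  rcases Z.eq_empty_or_nonempty with h0 | ⟨y, hy⟩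
  · rw [h0, Set.encard_empty]
    exact zero_le
  refine pack_rgn' hd hP (hZ hy) Z hZ (fun z hz => ?_) hZa
  have h2 := ds_tri y v z
  have h3 := hv y hy
  have h4 := hv z hz
  rw [ds_comm y v] at h2
  omega

end

section act

variable {G H : Type} [Group G] [PartialOrder H] [Bas H] [MulAction G H] [BAct G H]

theorem smul_U (g : G) (y : Vtx H) : (g • y).U = g • y.U := by
  ext h
  rw [mem_smul, Set.mem_smul_set_iff_inv_smul_mem]

theorem diff_smul (g : G) (y z : Vtx H) : (g • z).U \ (g • y).U = g • (z.U \ y.U) := by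
  rw [smul_U, smul_U, Set.smul_set_sdiff]

omit [PartialOrder H] [Bas H] [BAct G H] in
theorem ncard_smul (g : G) (A : Set H) : (g • A).ncard = A.ncard :=
  Set.ncard_image_of_injective _ (MulAction.injective g)

theorem ds_smul (g : G) (y z : Vtx H) : ds (g • y) (g • z) = ds y z := by
  rw [ds, diff_smul, ncard_smul, ds]

theorem spt_smul (g : G) {w : H} {y z : Vtx H} : Spt (g • w) (g • y) (g • z) ↔ Spt w y z := by
  unfold Spt
  rw [smul_mem_smul, smul_mem_smul]

theorem crs_smul (g : G) {h k : H} : Crs (g • h) (g • k) ↔ Crs h k := by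
  unfold Crs
  rw [← smul_st, smul_le, smul_le, smul_le, smul_le]

end act

end Pool.Agent.H54.CV
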