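import Pool.Agent.H54.CV.V1

/-!
# [CCC P2] Depth of half-spaces, chains
-/

set_option autoImplicit false

namespace Pool.Agent.H54.CV

open Pool.Agent.H37.CC Pool.Agent.H54.CP
open scoped Pointwise

section

variable {H : Type} [PartialOrder H] [Bas H]

theorem dep_pos {y : Vtx H} {h : H} (hh : h ∉ y.U) : 0 < dep y h :=
  (Set.ncard_pos (dep_fin y h)).2 ⟨h, le_rfl, hh⟩

theorem dep_anti (y : Vtx H) {h h' : H} (hle : h' ≤ h) : dep y h ≤ dep y h' :=
  Set.ncard_le_ncard (fun _ hk => ⟨hle.trans hk.1, hk.2⟩) (dep_fin y h')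

theorem dep_lt {y : Vtx H} {h h' : H} (hlt : h' < h) (hh : h' ∉ y.U) : dep y h < dep y h' := by
  refine Set.ncard_lt_ncard (Set.ssubset_iff_subset_ne.2 ⟨fun _ hk => ⟨hlt.le.trans hk.1, hk.2⟩, fun e => ?_⟩)
    (dep_fin y h')
  have h1 : h' ∈ {k | h ≤ k ∧ k ∉ y.U} := by
    rw [e]
    exact ⟨le_rfl, hh⟩
  exact absurd h1.1 hlt.not_ge

theorem dep_le_ds {y z : Vtx H} {h : H} (hh : h ∈ z.U) : dep y h ≤ ds y z :=
  Set.ncard_le_ncard (fun _ hk => ⟨z.up hh hk.1, hk.2⟩) (diff_fin y z)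

theorem dep_le_add (y z : Vtx H) (h : H) : dep y h ≤ dep z h + ds y z := by
  have h1 : {k | h ≤ k ∧ k ∉ y.U} ⊆ {k | h ≤ k ∧ k ∉ z.U} ∪ (z.U \ y.U) := by
    intro k hk
    by_cases hkz : k ∈ z.U
    · exact Or.inr ⟨hkz, hk.2⟩
    · exact Or.inl ⟨hk.1, hkz⟩
  exact (Set.ncard_le_ncard h1 ((dep_fin z h).union (diff_fin y z))).trans (Set.ncard_union_le _ _)

/-- `dep y h = 0` iff `y` is inside -/
theorem dep_eq_zero {y : Vtx H} {h : H} : dep y h = 0 ↔ h ∈ y.U := by
  constructor
  · intro h0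
    by_contra hcon
    exact absurd (dep_pos hcon) (by omega)
  · intro hh
    rw [dep, Set.ncard_eq_zero (dep_fin y h)]
    ext k
    simp only [Set.mem_ofPred_eq, Set.mem_empty_iff_false, iff_false, not_and, not_not]
    exact fun hk => y.up hh hk

/-- chains of half-spaces of depth at most `D` have at most `D` elements -/
theorem chain_card_le {y : Vtx H} {D : ℕ} {t : Finset H} (ht : IsChain (· ≤ ·) (t : Set H))
    (hy : ∀ h ∈ t, h ∉ y.U) (hD : ∀ h ∈ t, dep y h ≤ D) : t.card ≤ D := by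
  rcases t.eq_empty_or_nonempty with h | hne
  · rw [h]
    exact Nat.zero_le _
  obtain ⟨x, hx, hmin⟩ := t.exists_minimal hne
  refine le_trans ?_ (hD x hx)
  rw [dep, ← Set.ncard_coe_finset]
  refine Set.ncard_le_ncard (fun z hz => ?_) (dep_fin y x)
  refine ⟨?_, hy z hz⟩
  rcases ht.total hx hz with h | h
  · exact h
  · exact hmin hz h

/-- Mirsky: sets of half-spaces of depth at most `D` without facing pairs -/
theorem card_le_of_dep {n D : ℕ} (hd : Dim H n) {y : Vtx H} {t : Finset H}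
    (ht : ∀ h ∈ t, ∀ k ∈ t, ¬ h ≤ st k ∧ ¬ st h ≤ k) (hy : ∀ h ∈ t, h ∉ y.U) (hD : ∀ h ∈ t, dep y h ≤ D) :
    t.card ≤ n * D := by
  refine mirsky D t (nf_width hd ht) ?_
  intro u hu hc
  exact chain_card_le hc (fun h hh => hy h (hu hh)) fun h hh => hD h (hu hh)

/-- Mirsky: depth in a window of length `D` -/
theorem card_le_of_window {n c D : ℕ} (hd : Dim H n) {y : Vtx H} {t : Finset H}
    (ht : ∀ h ∈ t, ∀ k ∈ t, ¬ h ≤ st k ∧ ¬ st h ≤ k) (hy : ∀ h ∈ t, h ∉ y.U)
    (hD : ∀ h ∈ t, c < dep y h ∧ dep y h ≤ c + D) : t.card ≤ n * D := by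
  refine mirsky D t (nf_width hd ht) ?_
  intro u hu hc
  -- the depths of the elements of a chain are different
  have hinj : Set.InjOn (fun h => dep y h) (u : Set H) := by
    intro a ha b hb hab
    by_contra hne
    rcases hc.total ha hb with h | h
    · exact absurd (dep_lt (lt_of_le_of_ne h hne) (hy a (hu ha))) (by simp only at hab; omega)
    · exact absurd (dep_lt (lt_of_le_of_ne h (Ne.symm hne)) (hy b (hu hb))) (by simp only at hab; omega)
  have h1 : ∀ h ∈ u, dep y h ∈ Finset.Ioc c (c + D) := by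
    intro h hh
    rw [Finset.mem_Ioc]
    exact hD h (hu hh)
  have h2 := Finset.card_le_card_of_injOn _ h1 hinj
  rw [Nat.card_Ioc] at h2
  omega

/-- Mirsky: chains -/
theorem card_le_of_chain {n l : ℕ} (hd : Dim H n) {t : Finset H} (ht : ∀ h ∈ t, ∀ k ∈ t, ¬ h ≤ st k ∧ ¬ st h ≤ k)
    (hl : ∀ u ⊆ t, IsChain (· ≤ ·) (u : Set H) → u.card ≤ l) : t.card ≤ n * l :=
  mirsky l t (nf_width hd ht) hl

/-- a chain with at least `l` elements contains a decreasing sequence of length `l` -/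
theorem exists_seq {α : Type*} [PartialOrder α] (x0 : α) : ∀ (l : ℕ) (u : Finset α),
    IsChain (· ≤ ·) (u : Set α) → l ≤ u.card → ∃ f : ℕ → α, (∀ t < l, f t ∈ u) ∧ ∀ t, t + 1 < l → f (t + 1) < f t := by
  classical
  intro l
  induction l with
  | zero => exact fun u _ _ => ⟨fun _ => x0, fun t ht => absurd ht (Nat.not_lt_zero t), fun t ht => absurd ht (by omega)⟩
  | succ l ih =>
    intro u hc hl
    obtain ⟨x, hx, hmin⟩ := u.exists_minimal (Finset.card_pos.1 (by omega))
    have hleast : ∀ y ∈ u, x ≤ y := by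
      intro y hy
      rcases hc.total hx hy with h | h
      · exact h
      · exact hmin hy h
    obtain ⟨f, hf1, hf2⟩ := ih (u.erase x) (hc.mono (by
      intro z hz
      exact Finset.mem_of_mem_erase hz)) (by
      rw [Finset.card_erase_of_mem hx]
      omega)
    refine ⟨fun t => if t < l then f t else x, fun t ht => ?_, fun t ht => ?_⟩
    · by_cases h : t < l
      · simp only [h, if_true]
        exact Finset.mem_of_mem_erase (hf1 t h)
      · simp only [h, if_false]
        exact hx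
    · have h1 : t < l := by omega
      by_cases h2 : t + 1 < l
      · simp only [h1, h2, if_true]
        exact hf2 t h2
      · simp only [h1, h2, if_true, if_false]
        have h3 := hf1 t h1
        exact lt_of_le_of_ne (hleast _ (Finset.mem_of_mem_erase h3)) (Ne.symm (Finset.ne_of_mem_erase h3))

end

section act

variable {G H : Type} [Group G] [PartialOrder H] [Bas H] [MulAction G H] [BAct G H]

theorem up_smul (g : G) (y : Vtx H) (h : H) :
    {k | g • h ≤ k ∧ k ∉ (g • y).U} = (fun k => g • k) '' {k | h ≤ k ∧ k ∉ y.U} := by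
  ext k
  constructor
  · rintro ⟨h1, h2⟩
    refine ⟨g⁻¹ • k, ⟨?_, h2⟩, smul_inv_smul g k⟩
    rw [← smul_le (g := g), smul_inv_smul]
    exact h1
  · rintro ⟨k, ⟨h1, h2⟩, rfl⟩
    exact ⟨smul_le.2 h1, fun h3 => h2 (smul_mem_smul.1 h3)⟩

theorem dep_smul (g : G) (y : Vtx H) (h : H) : dep (g • y) (g • h) = dep y h := by
  rw [dep, up_smul, Set.ncard_image_of_injective _ (MulAction.injective g), dep]

end act

end Pool.Agent.H54.CV
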